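import Mathlib

/-! Project DD (helper401), package LMI (helper446): the eigenvalues tend to infinity; the general
lemma. -/

set_option autoImplicit false

open Set Filter Topology
open scoped InnerProductSpace

namespace Pool.Agent.U446.DD

theorem core {H K : Type} [NormedAddCommGroup H] [InnerProductSpace ℝ H]
    [NormedAddCommGroup K] [InnerProductSpace ℝ K]
    (W : Submodule ℝ (H × K)) (w : ℕ → H) (g : ℕ → K) (lam : ℕ → ℝ)
    (mem : ∀ n, (w n, g n) ∈ W) (orth : Orthonormal ℝ w)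
    (eig : ∀ n, ∀ p ∈ W, ⟪g n, p.2⟫_ℝ = lam n * ⟪w n, p.1⟫_ℝ)
    (tb : ∀ R : ℝ, TotallyBounded {v : H | ∃ z : K, (v, z) ∈ W ∧ ‖z‖ ≤ R}) :
    Tendsto lam atTop atTop := by
  classical
  have hlam : ∀ n, ‖g n‖ ^ 2 = lam n := by
    intro n
    have h := eig n _ (mem n)
    rw [real_inner_self_eq_norm_sq, real_inner_self_eq_norm_sq, orth.1 n] at h
    simpa using h
  rw [tendsto_atTop]
  intro b
  by_contra hcon
  have hfr : ∃ᶠ n in atTop, ¬ b ≤ lam n := by
    rw [Filter.not_eventually] at hcon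
    exact hcon
  rw [Nat.frequently_atTop_iff_infinite] at hfr
  obtain ⟨t, htf, hts⟩ := Metric.totallyBounded_iff.1 (tb (Real.sqrt b)) (1 / 2) (by norm_num)
  have hcov : ∀ n ∈ {n | ¬ b ≤ lam n}, ∃ y ∈ t, dist (w n) y < 1 / 2 := by
    intro n hn
    have h1 : lam n < b := not_le.1 hn
    have h2 : ‖g n‖ ≤ Real.sqrt b := by
      apply Real.le_sqrt_of_sq_le
      rw [hlam n]
      exact h1.le
    have h3 := hts (show w n ∈ {v : H | ∃ z : K, (v, z) ∈ W ∧ ‖z‖ ≤ Real.sqrt b} from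
      ⟨g n, mem n, h2⟩)
    simp only [mem_iUnion, Metric.mem_ball, exists_prop] at h3
    exact h3
  choose! y hy hyd using hcov
  obtain ⟨n, hn, k, hk, hnk, hyy⟩ := hfr.exists_ne_map_eq_of_mapsTo (f := y) (t := t)
    (fun n hn => hy n hn) htf
  have h1 := hyd n hn
  have h2 := hyd k hk
  rw [← hyy] at h2
  have h3 : dist (w n) (w k) < 1 := by
    calc dist (w n) (w k) ≤ dist (w n) (y n) + dist (w k) (y n) := dist_triangle_right _ _ _
      _ < 1 := by linarith
  rw [dist_eq_norm] at h3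
  have h4 : ‖w n - w k‖ ^ 2 = 2 := by
    rw [norm_sub_sq_real, orth.1 n, orth.1 k, orth.2 hnk]
    norm_num
  have h5 : 0 ≤ ‖w n - w k‖ := norm_nonneg _
  nlinarith

end Pool.Agent.U446.DD
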